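import Pool.Agent.H70.CG.FIN

/-!
# Expected maximum matching of random bipartite graphs from doubly stochastic matrices:
the conjectured inequality up to an additive constant, and exactly for matrices with
`∑ a_ij ^ 2 ≥ 123 / 5`
-/

namespace Pool.Agent.Results.MP_c859d5_co.AdditiveConstant

open Finset

/-- `A` is doubly stochastic. -/
def DoublyStochastic {n : ℕ} (A : Fin n → Fin n → ℝ) : Prop :=
  (∀ i j, 0 ≤ A i j) ∧ (∀ i, ∑ j, A i j = 1) ∧ (∀ j, ∑ i, A i j = 1)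

/-- `M` is a matching: two edges with a common left or right vertex are equal. -/
def IsMatching {n : ℕ} (M : Finset (Fin n × Fin n)) : Prop :=
  ∀ e ∈ M, ∀ e' ∈ M, (e.1 = e'.1 ∨ e.2 = e'.2) → e = e'

/-- The matching number of the bipartite graph with edge set `R`. -/
noncomputable def matchingNumber {n : ℕ} (R : Finset (Fin n × Fin n)) : ℕ :=
  sSup {k | ∃ M : Finset (Fin n × Fin n), M ⊆ R ∧ IsMatching M ∧ k = M.card}

/-- The expected matching number of the random bipartite graph in which the edge `(i, j)` is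
present with probability `A i j`, independently. -/
noncomputable def F {n : ℕ} (A : Fin n → Fin n → ℝ) : ℝ :=
  ∑ R : Finset (Fin n × Fin n),
    ((∏ e ∈ R, A e.1 e.2) * ∏ e ∈ Rᶜ, (1 - A e.1 e.2)) * matchingNumber R

/-- The matrix with all entries `1 / n`. -/
noncomputable def J (n : ℕ) : Fin n → Fin n → ℝ := fun _ _ => 1 / n

theorem matchingNumber_eq {n : ℕ} (R : Finset (Fin n × Fin n)) :
    (matchingNumber R : ℝ) = H70.CG.nu H70.CG.one1 R := by
  obtain ⟨M, h1, h2, h3⟩ := H70.CG.exists_nu H70.CG.one1 R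
  have hw : ∀ M : Finset (Fin n × Fin n), H70.CG.wsum H70.CG.one1 M = M.card := by
    intro M
    unfold H70.CG.wsum H70.CG.one1
    rw [Finset.sum_const, nsmul_eq_mul, mul_one]
  have hg : IsGreatest {k | ∃ M : Finset (Fin n × Fin n), M ⊆ R ∧ IsMatching M ∧ k = M.card}
      M.card := by
    refine ⟨⟨M, h1, h2, rfl⟩, ?_⟩
    rintro k ⟨M', h4, h5, rfl⟩
    have h6 := H70.CG.nu_ge H70.CG.one1 (G := R) (M := M') h5 h4
    rw [← h3, hw, hw] at h6
    exact_mod_cast h6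
  unfold matchingNumber
  rw [hg.csSup_eq, ← h3, hw]

theorem F_eq {n : ℕ} (A : Fin n → Fin n → ℝ) :
    F A = H70.CG.ex (fun e : Fin n × Fin n => A e.1 e.2) (H70.CG.nu H70.CG.one1) := by
  unfold F H70.CG.ex H70.CG.wt
  exact Finset.sum_congr rfl fun R _ => by rw [matchingNumber_eq]

/-- For every `n ≥ 1` and every doubly stochastic `A` of size `n`,
`F(A) ≥ F(J_n) - 3 / 5 + (1 / 41) ∑ a_ij ^ 2`; hence `F(A) ≥ F(J_n)` if `∑ a_ij ^ 2 ≥ 123 / 5`. -/
theorem result : ∀ (n : ℕ), 1 ≤ n → ∀ A : Fin n → Fin n → ℝ, DoublyStochastic A →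
    F (J n) ≤ F A + 3 / 5 - (∑ i, ∑ j, A i j ^ 2) / 41 ∧
    (123 / 5 ≤ ∑ i, ∑ j, A i j ^ 2 → F (J n) ≤ F A) := by
  intro n hn A hA
  obtain ⟨Om, ⟨hOm, _, _⟩, _⟩ := H70.CG.NUMA.om
  have h1 := H70.CG.GREAL.gapd H70.CG.gint_all H70.CG.STR.str Om hOm (Fin n) (Fin n) A
    H70.CG.one1 hA.1 (fun u => (hA.2.1 u).le) (fun v => (hA.2.2 v).le) (fun _ _ => by
      unfold H70.CG.one1; norm_num)
  have h2 := H70.CG.FIN.upp Om hOm n hn
  have h3 : ∑ i, ∑ j, ((2 - 2 * Om - Om ^ 2) * A i j + 1 / 41 * A i j ^ 2) *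
      (H70.CG.one1 i j : ℝ) = (2 - 2 * Om - Om ^ 2) * n + (∑ i, ∑ j, A i j ^ 2) / 41 := by
    have e1 : ∑ i, ∑ j, A i j = n := by
      rw [Finset.sum_congr rfl fun i _ => hA.2.1 i]
      simp
    rw [← e1, Finset.mul_sum, Finset.sum_div, ← Finset.sum_add_distrib]
    refine Finset.sum_congr rfl fun i _ => ?_
    rw [Finset.mul_sum, Finset.sum_div, ← Finset.sum_add_distrib]
    exact Finset.sum_congr rfl fun j _ => by unfold H70.CG.one1; ring
  rw [h3, ← F_eq] at h1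
  have h4 : F (J n) ≤ (2 - 2 * Om - Om ^ 2) * n + 3 / 5 := by
    rw [F_eq]; exact h2
  refine ⟨by linarith, fun h => by linarith⟩

end Pool.Agent.Results.MP_c859d5_co.AdditiveConstant
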